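import Mathlib

/-! Every sufficiently long word over a finite ordered alphabet contains `f f` or `f g f`
with `f`, `g` regular (Lyndon) words. -/

set_option autoImplicit false

namespace Pool.Agent.MP_3312ae_al.HR.D

variable {α : Type} [LinearOrder α]

/-- Regular words. -/
inductive Reg : List α → Prop
  | one (x : α) : Reg [x]
  | app {u v : List α} : Reg u → Reg v → u ++ v < v ++ u → Reg (u ++ v)

/-- The word contains `f f` or `f g f` with `f`, `g` regular. -/
def Pat (w : List α) : Prop :=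
  ∃ u f g v : List α, Reg f ∧ (g = [] ∨ Reg g) ∧ w = u ++ (f ++ (g ++ (f ++ v)))

lemma Pat.app {w : List α} (h : Pat w) (a b : List α) : Pat (a ++ (w ++ b)) := by
  obtain ⟨u, f, g, v, hf, hg, rfl⟩ := h
  exact ⟨a ++ u, f, g, v ++ b, hf, hg, by simp only [List.append_assoc]⟩

/-- Prefix of an infinite word. -/
def pre (m : ℕ → α) (n : ℕ) : List α := (List.range n).map m

/-- `m[k..k+n) = m[0..n)`. -/
def Agree (m : ℕ → α) (k n : ℕ) : Prop := ∀ j < n, m (k + j) = m j

/-- `m` is lexicographically at most each of its shifts. -/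
def IsMinW (m : ℕ → α) : Prop := ∀ k n, Agree m k n → m n ≤ m (k + n)

omit [LinearOrder α] in
lemma pre_succ (m : ℕ → α) (n : ℕ) : pre m (n + 1) = pre m n ++ [m n] := by
  simp [pre, List.range_succ]

omit [LinearOrder α] in
lemma pre_add (m : ℕ → α) (k n : ℕ) :
    pre m (k + n) = pre m k ++ pre (fun j => m (k + j)) n := by
  induction n with
  | zero => simp [pre]
  | succ n ih => rw [← add_assoc, pre_succ, ih, pre_succ, List.append_assoc]

omit [LinearOrder α] in
lemma pre_congr {m y : ℕ → α} {n : ℕ} (h : ∀ j < n, m j = y j) : pre m n = pre y n :=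
  List.map_congr_left fun j hj => h j (List.mem_range.1 hj)

omit [LinearOrder α] in
lemma pre_agree {m : ℕ → α} {k n : ℕ} (h : Agree m k n) :
    pre m (k + n) = pre m k ++ pre m n := by
  rw [pre_add, pre_congr h]

omit [LinearOrder α] in
lemma Agree.mono {m : ℕ → α} {k n n' : ℕ} (h : Agree m k n) (h' : n' ≤ n) : Agree m k n' :=
  fun j hj => h j (hj.trans_le h')

omit [LinearOrder α] in
lemma Agree.succ {m : ℕ → α} {k n : ℕ} (h : Agree m k n) (h' : m (k + n) = m n) :
    Agree m k (n + 1) := fun j hj => by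
  rcases (Nat.lt_succ_iff.1 hj).lt_or_eq with h1 | rfl
  · exact h j h1
  · exact h'

/-- The squeeze lemma. -/
lemma IsMinW.squeeze {m : ℕ → α} (hm : IsMinW m) {k b : ℕ} (hb : Agree m k b) (s : ℕ)
    (hs : Agree m (k + b) s) : Agree m k (b + s) ∧ Agree m b s := by
  induction s with
  | zero => exact ⟨hb, fun j hj => absurd hj (Nat.not_lt_zero j)⟩
  | succ s ih =>
    obtain ⟨h1, h2⟩ := ih (hs.mono (Nat.le_succ s))
    have e1 := hm _ _ h1
    have e2 := hm _ _ h2
    have e3 : m (k + (b + s)) = m s := by rw [← add_assoc]; exact hs s (Nat.lt_succ_self s)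
    have e4 : m (b + s) = m s := le_antisymm (e3 ▸ e1) e2
    exact ⟨h1.succ (e3.trans e4.symm), h2.succ e4⟩

/-- The prefix of length `n` has no proper border. -/
def Unb (m : ℕ → α) (n : ℕ) : Prop := ∀ k b, 0 < k → 0 < b → k + b = n → ¬ Agree m k b

lemma IsMinW.period {m : ℕ → α} (hm : IsMinW m) {n : ℕ} (hn : 0 < n) :
    ∃ p s, 0 < p ∧ p + s = n ∧ Agree m p s ∧ Unb m p := by
  classical
  have hex : ∃ p, 0 < p ∧ ∃ s, p + s = n ∧ Agree m p s :=
    ⟨n, hn, 0, rfl, fun j hj => absurd hj (Nat.not_lt_zero j)⟩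
  obtain ⟨hp, s, hs, ha⟩ := Nat.find_spec hex
  refine ⟨_, s, hp, hs, ha, fun k b hk hb hkb h => ?_⟩
  exact Nat.find_min hex (m := k) (by omega)
    ⟨hk, b + s, by omega, (hm.squeeze h s (hkb ▸ ha)).1⟩

lemma lt_of_first {p s t : List α} {x y : α} (h : x < y) : p ++ x :: s < p ++ y :: t :=
  List.append_left_lt (List.cons_lt_cons_iff.2 (Or.inl h))

lemma IsMinW.reg_snoc {m : ℕ → α} (hm : IsMinW m) (n : ℕ) : ∀ x : α,
    (∀ k s, 0 < k → k + s = n → Agree m k s → m s < x) → Reg (pre m n ++ [x]) := by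
  induction n using Nat.strong_induction_on with
  | _ n ih =>
    intro x hx
    rcases Nat.eq_zero_or_pos n with rfl | hn
    · exact Reg.one x
    obtain ⟨p, s, hp, hs, ha, hu⟩ := hm.period hn
    obtain ⟨q, rfl⟩ : ∃ q, p = q + 1 := ⟨p - 1, by omega⟩
    have h1 : Reg (pre m (q + 1)) := by
      rw [pre_succ]
      refine ih q (by omega) _ fun k b hk hb h => ?_
      refine lt_of_le_of_ne (hb ▸ hm _ _ h) fun e => ?_
      exact hu k (b + 1) hk (Nat.succ_pos b) (by omega) (h.succ (by rw [hb, e]))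
    have h2 : Reg (pre m s ++ [x]) := by
      refine ih s (by omega) _ fun k b hk hb h => hx (q + 1 + k) b (by omega) (by omega) ?_
      intro j hj
      rw [add_assoc, ha (k + j) (by omega), h j hj]
    have h3 : pre m n ++ [x] = pre m (q + 1) ++ (pre m s ++ [x]) := by
      rw [← hs, pre_agree ha, List.append_assoc]
    rw [h3]
    refine Reg.app h1 h2 ?_
    rw [← h3, show n = s + 1 + q by omega, pre_add, pre_succ]
    simp only [List.append_assoc, List.singleton_append]
    exact lt_of_first (hx _ _ hp hs ha)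

lemma IsMinW.lt_of_unb {m : ℕ → α} (hm : IsMinW m) {q : ℕ} (hu : Unb m (q + 1)) (k b : ℕ)
    (hk : 0 < k) (hb : k + b = q) (h : Agree m k b) : m b < m q := by
  refine lt_of_le_of_ne (hb ▸ hm _ _ h) fun e => ?_
  exact hu k (b + 1) hk (Nat.succ_pos b) (by omega) (h.succ (by rw [hb, e]))

lemma IsMinW.reg_pre {m : ℕ → α} (hm : IsMinW m) {p : ℕ} (hp : 0 < p) (hu : Unb m p) :
    Reg (pre m p) := by
  obtain ⟨q, rfl⟩ : ∃ q, p = q + 1 := ⟨p - 1, by omega⟩
  rw [pre_succ]
  exact hm.reg_snoc q _ (hm.lt_of_unb hu)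

/-- A recurrent minimal word contains a pattern. -/
lemma IsMinW.pat [Finite α] {m : ℕ → α} (hm : IsMinW m)
    (hr : ∀ n, ∃ k, 0 < k ∧ Agree m k n) : ∃ n, Pat (pre m n) := by
  classical
  have h0 : ∀ x : α, ∃ c : ℕ, (∃ n, 0 < n ∧ Unb m n ∧ m n = x) →
      ∃ n, n < c ∧ 0 < n ∧ Unb m n ∧ m n = x := fun x => by
    by_cases h : ∃ n, 0 < n ∧ Unb m n ∧ m n = x
    · obtain ⟨n, hn⟩ := h
      exact ⟨n + 1, fun _ => ⟨n, Nat.lt_succ_self n, hn⟩⟩
    · exact ⟨0, fun h' => absurd h' h⟩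
  choose c hc using h0
  obtain ⟨C0, hC0⟩ := (Set.finite_range c).bddAbove
  obtain ⟨C, hC, hCpos⟩ : ∃ C, (∀ x, c x ≤ C) ∧ 0 < C :=
    ⟨C0 + 1, fun x => (hC0 ⟨x, rfl⟩).trans (Nat.le_succ _), Nat.succ_pos _⟩
  obtain ⟨i, ⟨hi, ha⟩, hmin⟩ : ∃ i, (0 < i ∧ Agree m i C) ∧ ∀ k < i, ¬ (0 < k ∧ Agree m k C) :=
    ⟨_, Nat.find_spec (hr C), fun k hk => Nat.find_min (hr C) hk⟩
  have hu : Unb m i := fun k b hk hb hkb h =>
    hmin b (by omega) ⟨hb, (hm.squeeze h C (hkb ▸ ha)).2⟩
  rcases le_or_gt i C with hiC | hiC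
  · refine ⟨i + i, [], pre m i, [], [], hm.reg_pre hi hu, Or.inl rfl, ?_⟩
    rw [pre_agree (ha.mono hiC)]
    simp
  obtain ⟨q, rfl⟩ : ∃ q, i = q + 1 := ⟨i - 1, by omega⟩
  obtain ⟨p, s, hp, hs, hps, hup⟩ := hm.period (n := q) (by omega)
  have hsC : s < C := by
    by_contra h
    exact hmin p (by omega) ⟨hp, hps.mono (not_lt.1 h)⟩
  rcases Nat.eq_zero_or_pos s with rfl | hs0
  · obtain rfl : p = q := by omega
    obtain ⟨n, hn, hn0, hun, e⟩ := hc (m p) ⟨p, hp, hup, rfl⟩
    refine ⟨p + 1 + (n + 1), pre m p, [m p], pre m n, [], Reg.one _,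
      Or.inr (hm.reg_pre hn0 hun), ?_⟩
    rw [pre_agree (ha.mono (by have := hC (m p); omega)), pre_succ, pre_succ, e]
    simp
  · obtain ⟨p', s', hp', hs', hps', hup'⟩ := hm.period hs0
    refine ⟨q + 1 + p', pre m p, pre m p', pre m s' ++ [m q], [], hm.reg_pre hp' hup',
      Or.inr (hm.reg_snoc s' _ fun k b hk hb h => ?_), ?_⟩
    · refine hm.lt_of_unb hu (p + (p' + k)) b (by omega) (by omega) fun j hj => ?_
      rw [add_assoc, hps _ (by omega), add_assoc, hps' _ (by omega), h j hj]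
    · rw [pre_agree (ha.mono (by omega)), pre_succ, ← hs, pre_agree hps, ← hs', pre_agree hps']
      simp

section compact

variable {β : Type} [TopologicalSpace β] [DiscreteTopology β]

lemma isClosed_of_dep (Q : (ℕ → β) → Prop) (N : ℕ)
    (h : ∀ y z : ℕ → β, (∀ j < N, y j = z j) → Q y → Q z) : IsClosed {y | Q y} := by
  have e : {y | Q y} = (fun (y : ℕ → β) (j : Fin N) => y j) ⁻¹'
      ((fun (y : ℕ → β) (j : Fin N) => y j) '' {y | Q y}) := by
    ext z
    refine ⟨fun hz => ⟨z, hz, rfl⟩, ?_⟩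
    rintro ⟨y, hy, e⟩
    exact h y z (fun j hj => congrFun e ⟨j, hj⟩) hy
  rw [e]
  exact (isClosed_discrete _).preimage (continuous_pi fun j => continuous_apply _)

lemma exists_lexmin [Finite β] {γ : Type} [LinearOrder γ] (f : β → γ) {S : Set (ℕ → β)}
    (hS : IsClosed S) (hne : S.Nonempty) :
    ∃ m ∈ S, ∀ y ∈ S, ∀ n, (∀ j < n, y j = m j) → f (m n) ≤ f (y n) := by
  let T : ℕ → Set (ℕ → β) := fun n =>
    Nat.rec S (fun k U => {y | y ∈ U ∧ ∀ z ∈ U, f (y k) ≤ f (z k)}) n
  have hT : ∀ n, T (n + 1) = {y | y ∈ T n ∧ ∀ z ∈ T n, f (y n) ≤ f (z n)} := fun n => rfl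
  have hcl : ∀ n, IsClosed (T n) := fun n => by
    induction n with
    | zero => exact hS
    | succ n ih =>
      rw [hT]
      refine ih.inter (isClosed_of_dep (fun y => ∀ z ∈ T n, f (y n) ≤ f (z n)) (n + 1) ?_)
      intro y z hyz h
      rwa [← hyz n (Nat.lt_succ_self n)]
  have hn : ∀ n, (T n).Nonempty := fun n => by
    induction n with
    | zero => exact hne
    | succ n ih =>
      obtain ⟨_, ⟨y, hy, rfl⟩, h⟩ := Set.exists_min_image ((fun y : ℕ → β => y n) '' T n) f
        (Set.toFinite _) (ih.image _)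
      exact ⟨y, hy, fun z hz => h _ ⟨z, hz, rfl⟩⟩
  obtain ⟨m, hm⟩ := IsCompact.nonempty_iInter_of_sequence_nonempty_isCompact_isClosed T
    (fun n y hy => hy.1) hn (hcl 0).isCompact hcl
  rw [Set.mem_iInter] at hm
  refine ⟨m, hm 0, fun y hy n h => (hm (n + 1)).2 y ?_⟩
  induction n with
  | zero => exact hy
  | succ n ih =>
    refine ⟨ih fun j hj => h j (hj.trans (Nat.lt_succ_self n)), fun z hz => ?_⟩
    rw [h n (Nat.lt_succ_self n)]
    exact (hm (n + 1)).2 z hz

end compact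

/-- The word theorem. -/
theorem exists_pat (α : Type) [LinearOrder α] [Finite α] :
    ∃ N : ℕ, ∀ w : List α, N ≤ w.length → Pat w := by
  by_contra hcon
  push Not at hcon
  let : TopologicalSpace α := ⊥
  have : DiscreteTopology α := ⟨rfl⟩
  have hcl : ∀ n, IsClosed {y : ℕ → α | ¬ Pat (pre y n)} := fun n =>
    isClosed_of_dep _ n fun y z h hy => by rwa [← pre_congr h]
  let S : Set (ℕ → α) := ⋂ n, {y | ¬ Pat (pre y n)}
  have hS : IsClosed S := isClosed_iInter hcl
  have hSne : S.Nonempty := by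
    refine IsCompact.nonempty_iInter_of_sequence_nonempty_isCompact_isClosed _
      (fun n y hy h => hy ?_) (fun n => ?_) (hcl 0).isCompact hcl
    · rw [pre_succ]
      exact h.app [] _
    · obtain ⟨w, hw, hp⟩ := hcon (n + 1)
      refine ⟨fun j => w.getD j (w[0]'(by omega)), fun h => hp ?_⟩
      have e : pre (fun j => w.getD j (w[0]'(by omega))) n = w.take n := by
        refine List.ext_getElem (by simp [pre]; omega) fun j h1 h2 => ?_
        have h3 : j < w.length := by simp at h2; omega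
        simp [pre, List.getElem?_eq_getElem h3]
      rw [e] at h
      have := h.app [] (w.drop n)
      rwa [List.nil_append, List.take_append_drop] at this
  have hshift : ∀ y ∈ S, ∀ k, (fun j => y (k + j)) ∈ S := fun y hy k =>
    Set.mem_iInter.2 fun n h => Set.mem_iInter.1 hy (k + n) (by
      have := h.app (pre y k) []
      rwa [List.append_nil, ← pre_add] at this)
  have hM : IsClosed (S ∩ {y | IsMinW y}) := by
    refine hS.inter ?_
    simp only [IsMinW, Set.ofPred_forall]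
    refine isClosed_iInter fun k => isClosed_iInter fun n => ?_
    refine isClosed_of_dep _ (k + n + 1) fun y z h hy ha => ?_
    rw [← h n (by omega), ← h (k + n) (by omega)]
    refine hy fun j hj => ?_
    rw [h _ (by omega), h _ (by omega), ha j hj]
  have hMne : (S ∩ {y | IsMinW y}).Nonempty := by
    obtain ⟨m, hm, h⟩ := exists_lexmin id hS hSne
    exact ⟨m, hm, fun k n ha => h _ (hshift m hm k) n ha⟩
  obtain ⟨m, ⟨hmS, hm⟩, hmax⟩ := exists_lexmin OrderDual.toDual hM hMne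
  let U : Set (ℕ → α) := ⋂ n, {y | ∃ k, 0 < k ∧ ∀ j < n, y j = m (k + j)}
  have hU : IsClosed U := isClosed_iInter fun n =>
    isClosed_of_dep _ n fun y z h ⟨k, hk, hy⟩ => ⟨k, hk, fun j hj => by rw [← h j hj, hy j hj]⟩
  obtain ⟨y, hy, hmin⟩ := exists_lexmin id hU
    ⟨fun j => m (1 + j), Set.mem_iInter.2 fun n => ⟨1, Nat.one_pos, fun _ _ => rfl⟩⟩
  have hy' := Set.mem_iInter.1 hy
  have hyS : y ∈ S := Set.mem_iInter.2 fun n => by
    obtain ⟨k, -, hk⟩ := hy' n
    change ¬ Pat (pre y n)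
    rw [pre_congr hk]
    exact Set.mem_iInter.1 (hshift m hmS k) n
  have hyM : IsMinW y := fun k n ha => by
    refine hmin (fun j => y (k + j)) (Set.mem_iInter.2 fun t => ?_) n ha
    obtain ⟨l, hl, h⟩ := hy' (k + t)
    exact ⟨l + k, by omega, fun j hj => by rw [add_assoc]; exact h _ (by omega)⟩
  have hym : ∀ n, y n = m n := fun n => by
    induction n using Nat.strong_induction_on with
    | _ n ih =>
      refine le_antisymm (hmax y ⟨hyS, hyM⟩ n ih) ?_
      obtain ⟨k, -, hk⟩ := hy' (n + 1)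
      rw [hk n (Nat.lt_succ_self n)]
      exact hm k n fun j hj => by rw [← hk j (by omega), ih j hj]
  obtain ⟨n, hn⟩ := hm.pat fun n => by
    obtain ⟨k, hk, h⟩ := hy' n
    exact ⟨k, hk, fun j hj => by rw [← h j hj, hym]⟩
  exact Set.mem_iInter.1 hmS n hn

end Pool.Agent.MP_3312ae_al.HR.D
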