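import Pool.Agent.MP_3312ae_al.HR.Spec
import Pool.Agent.MP_3312ae_al.HR.D.Words

/-! The Kostrikin-Zelmanov sandwich theorem, associative and Lie forms. -/

set_option autoImplicit false

namespace Pool.Agent.MP_3312ae_al.HR.D

section assoc

variable {α : Type} [LinearOrder α] {R : Type} [Ring R] (a : α → R)

lemma app_lt {u u' : List α} (h : u < u') :
    u'.length = u.length → ∀ v v' : List α, u ++ v < u' ++ v' := by
  induction h with
  | nil => intro h; simp at h
  | rel h => exact fun _ v v' => List.cons_lt_cons_iff.2 (Or.inl h)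
  | cons _ ih =>
    intro h v v'
    exact List.cons_lt_cons_iff.2 (Or.inr ⟨rfl, ih (by simpa using h) v v'⟩)

/-- Span of the larger words of the same length. -/
def Up (w : List α) : Submodule ℤ R :=
  Submodule.span ℤ {x | ∃ w' : List α, w'.length = w.length ∧ w < w' ∧ (w'.map a).prod = x}

lemma Up_mul {u v : List α} {x y : R} (hx : x ∈ Up a u) (hy : y ∈ Up a v) :
    x * y ∈ Up a (u ++ v) := by
  have h := Submodule.mul_mem_mul hx hy
  rw [Up, Up, Submodule.span_mul_span] at h
  refine Submodule.span_mono ?_ h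
  rintro _ ⟨_, ⟨u', h1, h2, rfl⟩, _, ⟨v', h3, -, rfl⟩, rfl⟩
  exact ⟨u' ++ v', by simp [h1, h3], app_lt h2 h1 _ _, by simp⟩

lemma Up_mul_right {u : List α} (v : List α) {x : R} (hx : x ∈ Up a u) :
    x * (v.map a).prod ∈ Up a (u ++ v) := by
  have h := Submodule.mul_mem_mul hx (Submodule.mem_span_singleton_self (R := ℤ) (v.map a).prod)
  rw [Up, Submodule.span_mul_span] at h
  refine Submodule.span_mono ?_ h
  rintro _ ⟨_, ⟨u', h1, h2, rfl⟩, _, rfl, rfl⟩
  exact ⟨u' ++ v, by simp [h1], app_lt h2 h1 _ _, by simp⟩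

lemma Up_mul_left (u : List α) {v : List α} {y : R} (hy : y ∈ Up a v) :
    (u.map a).prod * y ∈ Up a (u ++ v) := by
  have h := Submodule.mul_mem_mul (Submodule.mem_span_singleton_self (R := ℤ) (u.map a).prod) hy
  rw [Up, Submodule.span_mul_span] at h
  refine Submodule.span_mono ?_ h
  rintro _ ⟨_, rfl, _, ⟨v', h3, h4, rfl⟩, rfl⟩
  exact ⟨u ++ v', by simp [h3], List.append_left_lt h4, by simp⟩

/-- `c` has leading word `w`. -/
def Lead (w : List α) (c : R) : Prop := c - (w.map a).prod ∈ Up a w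

lemma Lead.self (w : List α) : Lead a w (w.map a).prod := by
  rw [Lead, sub_self]
  exact zero_mem _

variable {a}

lemma Lead.mul {u v : List α} {c d : R} (hc : Lead a u c) (hd : Lead a v d) :
    Lead a (u ++ v) (c * d) := by
  have e : c * d - ((u ++ v).map a).prod = (c - (u.map a).prod) * (d - (v.map a).prod) +
      (c - (u.map a).prod) * (v.map a).prod + (u.map a).prod * (d - (v.map a).prod) := by
    rw [List.map_append, List.prod_append]
    noncomm_ring
  rw [Lead, e]
  exact add_mem (add_mem (Up_mul a hc hd) (Up_mul_right a v hc)) (Up_mul_left a u hd)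

variable (a)

lemma Reg.lead {w : List α} (h : Reg w) : ∃ c, IsRComm a c ∧ Lead a w c := by
  induction h with
  | one x => exact ⟨a x, IsRComm.gen x, by simpa using Lead.self a [x]⟩
  | @app u v _ _ huv ihu ihv =>
    obtain ⟨c, hc, hc'⟩ := ihu
    obtain ⟨d, hd, hd'⟩ := ihv
    refine ⟨_, hc.br hd, ?_⟩
    have hl : (v ++ u).length = (u ++ v).length := by simp [add_comm]
    have h1 : Up a (v ++ u) ≤ Up a (u ++ v) :=
      Submodule.span_mono fun x ⟨w', h1, h2, h3⟩ => ⟨w', h1.trans hl, huv.trans h2, h3⟩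
    have e : c * d - d * c - ((u ++ v).map a).prod = (c * d - ((u ++ v).map a).prod) -
        (d * c - ((v ++ u).map a).prod) - ((v ++ u).map a).prod := by abel
    rw [Lead, e]
    exact sub_mem (sub_mem (hc'.mul hd') (h1 (hd'.mul hc')))
      (Submodule.subset_span ⟨_, hl, huv, rfl⟩)

omit [LinearOrder α] in
/-- Commutators in sandwiches are sandwiches. -/
lemma sand (h1 : ∀ i, a i * a i = 0) (h2 : ∀ i l, IsRComm a l → a i * l * a i = 0) {c : R}
    (hc : IsRComm a c) : c * c = 0 ∧ ∀ l, IsRComm a l → c * l * c = 0 := by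
  induction hc with
  | gen i => exact ⟨h1 i, h2 i⟩
  | @br x y hx hy ihx ihy =>
    have exy := ihx.2 y hy
    have eyx := ihy.2 x hx
    refine ⟨?_, fun l hl => ?_⟩
    · have e : (x * y - y * x) * (x * y - y * x) =
          x * y * x * y - x * (y * y) * x - y * (x * x) * y + y * x * y * x := by noncomm_ring
      rw [e, exy, eyx, ihx.1, ihy.1]
      simp
    · have e : (x * y - y * x) * l * (x * y - y * x) =
          x * (y * l - l * y) * x * y + x * l * (y * x * y) - x * (y * l * y) * x -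
            y * (x * l * x) * y + y * (x * l - l * x) * y * x + y * l * (x * y * x) := by
        noncomm_ring
      rw [e, exy, eyx, ihx.2 l hl, ihy.2 l hl, ihx.2 _ (hy.br hl), ihy.2 _ (hx.br hl)]
      simp

lemma Pat.mem_up (h1 : ∀ i, a i * a i = 0) (h2 : ∀ i l, IsRComm a l → a i * l * a i = 0)
    {w : List α} (h : Pat w) : (w.map a).prod ∈ Up a w := by
  obtain ⟨u, f, g, v, hf, hg, rfl⟩ := h
  obtain ⟨c, hc, hc'⟩ := hf.lead a
  obtain ⟨d, hd, hd'⟩ : ∃ d, c * d * c = 0 ∧ Lead a g d := by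
    rcases hg with rfl | hg
    · exact ⟨1, by rw [mul_one]; exact (sand a h1 h2 hc).1, Lead.self a []⟩
    · obtain ⟨d, hd, hd'⟩ := hg.lead a
      exact ⟨d, (sand a h1 h2 hc).2 d hd, hd'⟩
  have h := (Lead.self a u).mul (hc'.mul (hd'.mul (hc'.mul (Lead.self a v))))
  rw [Lead, ← mul_assoc d, ← mul_assoc c, ← mul_assoc c, hd, zero_mul, mul_zero, zero_sub] at h
  exact neg_mem_iff.1 h

lemma words_zero [Finite α] (h1 : ∀ i, a i * a i = 0)
    (h2 : ∀ i l, IsRComm a l → a i * l * a i = 0) {n : ℕ}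
    (hn : ∀ w : List α, w.length = n → Pat w) (w : List α) (hw : w.length = n) :
    (w.map a).prod = 0 := by
  by_contra hne
  obtain ⟨v, ⟨hv, hv0⟩, hmax⟩ := Set.exists_max_image
    {w : List α | w.length = n ∧ (w.map a).prod ≠ 0} id
    ((List.finite_length_eq α n).subset fun _ h => h.1) ⟨w, hw, hne⟩
  refine hv0 ((Submodule.mem_bot ℤ).1 (Submodule.span_le.2 ?_ ((hn v hv).mem_up a h1 h2)))
  rintro _ ⟨u, h3, h4, rfl⟩
  by_contra h5
  exact absurd (hmax u ⟨h3.trans hv, h5⟩) (not_le.2 h4)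

end assoc

end Pool.Agent.MP_3312ae_al.HR.D

namespace Pool.Agent.MP_3312ae_al.HR

open D

theorem kzAssoc : KZAssoc := by
  intro k _ r
  obtain ⟨N, hN⟩ := exists_pat (Fin r)
  exact ⟨N, fun R _ _ a h1 h2 w hw =>
    words_zero a h1 h2 (fun v hv => hN v (hv ▸ hw)) w rfl⟩

theorem kz : KZ := by
  intro k _ r
  obtain ⟨s, hs⟩ := kzAssoc k r
  refine ⟨s, fun L _ _ a hspan h1 h2 => ?_⟩
  let b : Fin r → Module.End k L := fun i => LieAlgebra.ad k L (a i)
  have hlie : ∀ x y : L, LieAlgebra.ad k L ⁅x, y⁆ =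
      LieAlgebra.ad k L x * LieAlgebra.ad k L y - LieAlgebra.ad k L y * LieAlgebra.ad k L x :=
    fun x y => LinearMap.ext fun z => lie_lie x y z
  have hcomm : ∀ l, IsRComm b l → ∃ x, LieAlgebra.ad k L x = l := fun l hl => by
    induction hl with
    | gen i => exact ⟨a i, rfl⟩
    | br _ _ ihx ihy =>
      obtain ⟨x, rfl⟩ := ihx
      obtain ⟨y, rfl⟩ := ihy
      exact ⟨⁅x, y⁆, hlie x y⟩
  have hz := hs (Module.End k L) b (fun i => LinearMap.ext fun x => h1 i x) fun i l hl => by
    obtain ⟨x, rfl⟩ := hcomm l hl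
    exact LinearMap.ext fun y => h2 i x y
  let W : ℕ → Submodule k (Module.End k L) := fun n =>
    Submodule.span k {x | ∃ w : List (Fin r), n ≤ w.length ∧ (w.map b).prod = x}
  have hmul : ∀ m n x y, x ∈ W m → y ∈ W n → x * y ∈ W (m + n) := fun m n x y hx hy => by
    have h := Submodule.mul_mem_mul hx hy
    rw [Submodule.span_mul_span] at h
    refine Submodule.span_mono ?_ h
    rintro _ ⟨_, ⟨u, h1, rfl⟩, _, ⟨v, h3, rfl⟩, rfl⟩
    exact ⟨u ++ v, by rw [List.length_append]; omega, by simp⟩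
  have hmono : ∀ n, W (n + 1) ≤ W n := fun n =>
    Submodule.span_mono fun x ⟨w, h1, h2⟩ => ⟨w, by omega, h2⟩
  have had : ∀ x : L, LieAlgebra.ad k L x ∈ W 1 := fun x => by
    have hx : x ∈ LieSubalgebra.lieSpan k L (Set.range a) := hspan ▸ LieSubalgebra.mem_top x
    induction hx using LieSubalgebra.lieSpan_induction with
    | mem x h =>
      obtain ⟨i, rfl⟩ := h
      exact Submodule.subset_span ⟨[i], le_rfl, by simp [b]⟩
    | zero => rw [map_zero]; exact zero_mem _
    | add x y _ _ hx hy => rw [map_add]; exact add_mem hx hy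
    | smul c x _ hx => rw [map_smul]; exact Submodule.smul_mem _ c hx
    | lie x y _ _ hx hy =>
      rw [hlie]
      exact hmono 1 (sub_mem (hmul _ _ _ _ hx hy) (hmul _ _ _ _ hy hx))
  have key : ∀ n, ∀ y ∈ LieModule.lowerCentralSeries k L L n, ∀ m, ∀ f ∈ W m,
      s ≤ m + n → f y = 0 := fun n => by
    induction n with
    | zero =>
      intro y _ m f hf hm
      have : W m ≤ ⊥ := Submodule.span_le.2 fun x ⟨w, h1, h2⟩ => h2 ▸ hz w (by omega)
      rw [(Submodule.mem_bot k).1 (this hf), LinearMap.zero_apply]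
    | succ n ih =>
      intro y hy m f hf hm
      rw [LieModule.lowerCentralSeries_succ, ← LieSubmodule.mem_toSubmodule,
        LieSubmodule.lieIdeal_oper_eq_linear_span'] at hy
      refine (Submodule.span_le (p := LinearMap.ker f)).2 ?_ hy
      rintro _ ⟨x, -, z, hz', rfl⟩
      exact ih z hz' (m + 1) _ (hmul _ _ _ _ hf (had x)) (by omega)
  refine eq_bot_iff.2 fun y hy => ?_
  exact key s y hy 0 1 (Submodule.subset_span ⟨[], le_rfl, rfl⟩) (by omega)

end Pool.Agent.MP_3312ae_al.HR
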